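import Pool.Agent.T63.EQ.Step

/-!
# From the asymptotic formula for all heights to the equidistribution of the points
-/

set_option autoImplicit false

namespace Pool.Agent.T63.EQ

open Filter Topology MeasureTheory Set

variable {Pt : Type*}

/-- `(log B) ^ k` varies slowly -/
theorem log_ratio (k : ℕ) {a : ℝ} (ha : 0 < a) :
    Tendsto (fun B : ℝ => Real.log (a * B) ^ k / Real.log B ^ k) atTop (𝓝 1) := by
  have h1 : Tendsto (fun B : ℝ => Real.log a / Real.log B + 1) atTop (𝓝 1) := by
    have := (tendsto_const_nhds (x := Real.log a)).div_atTop Real.tendsto_log_atTop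
    simpa using this.add_const 1
  have h2 := h1.pow k
  rw [one_pow] at h2
  refine h2.congr' ?_
  filter_upwards [eventually_gt_atTop 1] with B hB
  have h3 : 0 < Real.log B := Real.log_pos hB
  rw [← div_pow, Real.log_mul ha.ne' (by linarith)]
  congr 1
  field_simp

section
variable {H w g : Pt → ℝ} (hH : ∀ P, 0 < H P) (hw : ∀ P, 0 ≤ w P) (hg0 : ∀ P, 0 ≤ g P)
  (hg1 : ∀ P, g P ≤ 1) (hfin : ∀ B, {P | H P ≤ B}.Finite)

include hH hw hg0 hg1 hfin in
/-- the oscillation is small -/
theorem bounds (k : ℕ) {c₀ : ℝ} (h₀ : Tendsto (fun B : ℝ => S H w B / (B * Real.log B ^ k)) atTop (𝓝 c₀))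
    {s c₁ : ℝ} (hs0 : 0 < s) (hs1 : s ≤ 1)
    (h₁ : Tendsto (fun B : ℝ => S (tw H g s) w B / (B * Real.log B ^ k)) atTop (𝓝 c₁)) :
    0 ≤ c₁ - c₀ ∧ ∀ᶠ B : ℝ in atTop,
      S H (fun P => w P * g P) B / (B * Real.log B ^ k) ≤ (c₁ - c₀) / s + 2 * s ∧
      (c₁ - c₀) / s * ((1 - s) ^ 3 * Real.exp (-s)) ≤
        S H (fun P => w P * g P) B / (B * Real.log B ^ k) := by
  set κ : ℝ := c₁ - c₀ with hκ
  set D : ℝ → ℝ := fun x => S (tw H g s) w x - S H w x with hD
  have hDlim : Tendsto (fun B : ℝ => D B / (B * Real.log B ^ k)) atTop (𝓝 κ) := by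
    have := h₁.sub h₀
    refine this.congr fun B => ?_
    rw [hD]
    simp only
    ring
  have hfins : ∀ B, {P | tw H g s P ≤ B}.Finite := fun B =>
    (hfin (B * Real.exp s)).subset fun P hP => le_of_tw hH hg1 hs0.le hP
  have hD0 : ∀ x, 0 ≤ D x := by
    intro x
    rw [hD]
    simp only
    rw [sub_nonneg]
    rw [S_eq (hfins x).toFinset (fun P hP => (hfins x).mem_toFinset.2 hP),
      S_eq (hfins x).toFinset (fun P hP => (hfins x).mem_toFinset.2 ((tw_le hH hg0 hs0.le P).trans hP))]
    refine Finset.sum_le_sum fun P _ => ?_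
    exact indicator_le_indicator_of_subset (fun P hP => (tw_le hH hg0 hs0.le P).trans hP)
      (fun P => hw P) P
  have hκ0 : 0 ≤ κ := by
    refine ge_of_tendsto hDlim ?_
    filter_upwards [eventually_ge_atTop 1] with B hB
    have := Real.log_nonneg hB
    exact div_nonneg (hD0 B) (by positivity)
  refine ⟨hκ0, ?_⟩
  -- the lower and the upper bound for `D`
  have hlow : ∀ᶠ x : ℝ in atTop, κ * (1 - s) * Real.log x ^ k ≤ D x / x := by
    rcases hκ0.eq_or_lt with h0 | h0
    · filter_upwards [eventually_ge_atTop 1] with x hx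
      rw [← h0, zero_mul, zero_mul]
      exact div_nonneg (hD0 x) (by linarith)
    · filter_upwards [hDlim.eventually (lt_mem_nhds (show κ * (1 - s) < κ by nlinarith)),
        eventually_gt_atTop 1] with x hx hx1
      have h2 : 0 < Real.log x ^ k := pow_pos (Real.log_pos hx1) k
      have hx0 : 0 < x := by linarith
      rw [lt_div_iff₀ (by positivity)] at hx
      rw [le_div_iff₀ hx0]
      linarith
  have hup : ∀ᶠ x : ℝ in atTop, D x / x ≤ (κ + s ^ 2) * Real.log x ^ k := by
    filter_upwards [hDlim.eventually (gt_mem_nhds (show κ < κ + s ^ 2 by nlinarith)),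
      eventually_gt_atTop 1] with x hx hx1
    have h2 : 0 < Real.log x ^ k := pow_pos (Real.log_pos hx1) k
    have hx0 : 0 < x := by linarith
    rw [div_lt_iff₀ (by positivity)] at hx
    rw [div_le_iff₀ hx0]
    linarith
  obtain ⟨X, hX⟩ := eventually_atTop.1 (hlow.and hup)
  set B₁ : ℝ := max X 1 with hB₁
  have hB₁1 : 1 ≤ B₁ := le_max_right _ _
  have hB₁0 : 0 < B₁ := by linarith
  have hB₁X : ∀ x, B₁ < x → κ * (1 - s) * Real.log x ^ k ≤ D x / x ∧
      D x / x ≤ (κ + s ^ 2) * Real.log x ^ k := fun x hx => hX x ((le_max_left _ _).trans hx.le)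
  set M : ℝ → ℝ := fun B => S H (fun P => w P * g P) B with hM
  -- the upper bound
  have hupper : ∀ᶠ B : ℝ in atTop, M B / (B * Real.log B ^ k) ≤ κ / s + 2 * s := by
    have h3 : Tendsto (fun B : ℝ => S H w (B₁ * Real.exp s) / (B * Real.log B ^ k)) atTop (𝓝 0) := by
      refine Tendsto.div_atTop tendsto_const_nhds ?_
      refine tendsto_atTop_mono' atTop ?_ tendsto_id
      filter_upwards [eventually_ge_atTop (Real.exp 1)] with B hB
      have hB0 : 0 < B := lt_of_lt_of_le (Real.exp_pos 1) hB
      have h4 : 1 ≤ Real.log B := by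
        rw [Real.le_log_iff_exp_le hB0]
        exact hB
      have h5 : 1 ≤ Real.log B ^ k := one_le_pow₀ h4
      simp only [id_eq]
      nlinarith
    filter_upwards [h3.eventually (gt_mem_nhds hs0), eventually_gt_atTop B₁,
      eventually_gt_atTop (Real.exp 1)] with B hB3 hBB hBe
    have hB0 : 0 < B := by linarith
    have hlogB : 1 < Real.log B := by
      rw [Real.lt_log_iff_exp_lt hB0]
      exact hBe
    have hL : 0 < Real.log B ^ k := pow_pos (by linarith) k
    have hBL : 0 < B * Real.log B ^ k := by positivity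
    have h6 := le_E hH hw hg0 hg1 hfin hs0.le hB₁0 hBB.le
    have h7 : ∫ x in Ioc B₁ B, (S (tw H g s) w x - S H w x) / x ≤
        ∫ _x in Ioc B₁ B, (κ + s ^ 2) * Real.log B ^ k := by
      refine setIntegral_mono_on (E_int hH hg0 hg1 hfin hs0.le hB₁0)
        (integrableOn_const (by simp)) measurableSet_Ioc fun x hx => ?_
      refine (hB₁X x hx.1).2.trans ?_
      have h8 : 0 ≤ Real.log x := Real.log_nonneg (by linarith [hx.1])
      have h9 : Real.log x ≤ Real.log B := Real.log_le_log (by linarith [hx.1]) hx.2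
      gcongr
    rw [setIntegral_const, Measure.real, Real.volume_Ioc, ENNReal.toReal_ofReal (by linarith),
      smul_eq_mul] at h7
    have h10 : (B - B₁) * ((κ + s ^ 2) * Real.log B ^ k) ≤ (κ + s ^ 2) * (B * Real.log B ^ k) := by
      have : 0 ≤ B₁ * ((κ + s ^ 2) * Real.log B ^ k) := by positivity
      nlinarith
    have h11 : s * M B ≤ (κ + s ^ 2) * (B * Real.log B ^ k) + s * S H w (B₁ * Real.exp s) := by
      linarith
    rw [div_lt_iff₀ hBL] at hB3
    rw [div_le_iff₀ hBL]
    have h12 : s * M B ≤ s * ((κ / s + 2 * s) * (B * Real.log B ^ k)) := by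
      have h13 : s * ((κ / s + 2 * s) * (B * Real.log B ^ k)) =
          (κ + s ^ 2) * (B * Real.log B ^ k) + s * (s * (B * Real.log B ^ k)) := by
        field_simp
        ring
      rw [h13]
      nlinarith
    exact le_of_mul_le_mul_left h12 hs0
  -- the lower bound
  have hlower : ∀ᶠ B : ℝ in atTop, κ / s * ((1 - s) ^ 3 * Real.exp (-s)) ≤ M B / (B * Real.log B ^ k) := by
    rcases hs1.eq_or_lt with h1s | h1s
    · filter_upwards [eventually_ge_atTop 1] with B hB
      rw [h1s]
      have := Real.log_nonneg hB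
      have h2 : 0 ≤ M B := S_nonneg (fun P => mul_nonneg (hw P) (hg0 P)) B
      simp only [sub_self, ne_eq, OfNat.ofNat_ne_zero, not_false_eq_true, zero_pow, zero_mul, mul_zero]
      positivity
    · have h1s0 : 0 < 1 - s := by linarith
      set a : ℝ := s * Real.exp (-s) with ha
      have ha0 : 0 < a := by positivity
      have hr := log_ratio k ha0
      have hev1 : ∀ᶠ B : ℝ in atTop, B₁ < a * B := by
        filter_upwards [eventually_gt_atTop (B₁ / a)] with B hB
        rw [div_lt_iff₀ ha0] at hB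
        linarith
      filter_upwards [hr.eventually (lt_mem_nhds (show 1 - s < 1 by linarith)), hev1,
        eventually_gt_atTop (Real.exp 1)] with B hBr hBa hBe
      have hB0 : 0 < B := lt_trans (Real.exp_pos 1) hBe
      have hlogB : 1 < Real.log B := by
        rw [Real.lt_log_iff_exp_lt hB0]
        exact hBe
      have hL : 0 < Real.log B ^ k := pow_pos (by linarith) k
      have hBL : 0 < B * Real.log B ^ k := by positivity
      set B' : ℝ := B * Real.exp (-s) with hB'
      have hB'0 : 0 < B' := by positivity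
      have hB'B : B' * Real.exp s = B := by
        rw [hB', mul_assoc, ← Real.exp_add]
        simp
      have haB : a * B = s * B' := by
        rw [ha, hB']
        ring
      have hsB' : B₁ < s * B' := by rw [← haB]; exact hBa
      have hsB'le : s * B' ≤ B' := by nlinarith
      have h6 := E_le hH hw hg0 hg1 hfin hs0.le hB₁0 (B := B')
      rw [hB'B] at h6
      have hint := E_int hH hg0 hg1 hfin hs0.le hB₁0 (B := B') (w := w)
      have h7 : ∫ x in Ioc (s * B') B', (S (tw H g s) w x - S H w x) / x ≤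
          ∫ x in Ioc B₁ B', (S (tw H g s) w x - S H w x) / x := by
        refine setIntegral_mono_set hint ?_ (HasSubset.Subset.eventuallyLE
          (Ioc_subset_Ioc_left hsB'.le))
        refine (ae_restrict_iff' measurableSet_Ioc).2 (Eventually.of_forall fun x hx => ?_)
        simp only [Pi.zero_apply]
        exact div_nonneg (hD0 x) (by linarith [hx.1])
      have h8 : ∫ _x in Ioc (s * B') B', κ * (1 - s) * Real.log (a * B) ^ k ≤
          ∫ x in Ioc (s * B') B', (S (tw H g s) w x - S H w x) / x := by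
        refine setIntegral_mono_on (integrableOn_const (by simp))
          (hint.mono_set (Ioc_subset_Ioc_left hsB'.le)) measurableSet_Ioc fun x hx => ?_
        refine le_trans ?_ (hB₁X x (hsB'.trans hx.1)).1
        have h9 : 0 ≤ Real.log (a * B) := Real.log_nonneg (by linarith)
        have h10 : Real.log (a * B) ≤ Real.log x := Real.log_le_log (by linarith) (by
          rw [haB]
          exact hx.1.le)
        gcongr
      rw [setIntegral_const, Measure.real, Real.volume_Ioc, ENNReal.toReal_ofReal (by linarith),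
        smul_eq_mul] at h8
      have h11 : (B' - s * B') * (κ * (1 - s) * Real.log (a * B) ^ k) ≤ s * M B := by
        linarith
      rw [lt_div_iff₀ hL] at hBr
      rw [le_div_iff₀ hBL]
      have h12 : s * (κ / s * ((1 - s) ^ 3 * Real.exp (-s)) * (B * Real.log B ^ k)) ≤ s * M B := by
        refine le_trans (le_of_eq ?_) ((mul_le_mul_of_nonneg_left (mul_le_mul_of_nonneg_left hBr.le
          (by positivity : 0 ≤ κ * (1 - s))) (by linarith : 0 ≤ B' - s * B')).trans h11)
        rw [hB']
        field_simp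
      exact le_of_mul_le_mul_left h12 hs0
  filter_upwards [hupper, hlower] with B h1 h2
  exact ⟨h1, h2⟩

include hH hw hg0 hg1 hfin in
/-- **one step** -/
theorem step (k : ℕ) (hlim : ∀ s : ℝ, 0 ≤ s → s ≤ 1 → Conv k (tw H g s) w) :
    Conv k H (fun P => w P * g P) := by
  have htw0 : tw H g 0 = H := by
    funext P
    unfold tw
    simp
  obtain ⟨c₀, h₀⟩ := hlim 0 le_rfl zero_le_one
  rw [htw0] at h₀
  set m : ℝ → ℝ := fun B => S H (fun P => w P * g P) B / (B * Real.log B ^ k) with hm
  -- boundedness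
  set C : ℝ := |c₀| + 1 with hC
  have hC0 : 0 < C := by positivity
  have hmC : ∀ᶠ B : ℝ in atTop, m B ≤ C := by
    filter_upwards [h₀.eventually (gt_mem_nhds (show c₀ < C by
      have := le_abs_self c₀
      linarith)), eventually_gt_atTop 1] with B hB hB1
    refine le_trans ?_ hB.le
    rw [hm]
    have h2 : 0 ≤ Real.log B := Real.log_nonneg hB1.le
    have h3 : 0 ≤ B * Real.log B ^ k := by positivity
    refine div_le_div_of_nonneg_right (S_mono_w hfin (fun P => ?_) B) h3
    have := hw P
    have := hg1 P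
    nlinarith
  have hcauchy : CauchySeq m := by
    rw [Metric.cauchySeq_iff]
    intro ε hε
    obtain ⟨s, hs0, hs8, hsε⟩ : ∃ s : ℝ, 0 < s ∧ s ≤ 1 / 8 ∧ s * (8 * C + 2) < ε := by
      refine ⟨min (1 / 8) (ε / (2 * (8 * C + 2))), by positivity, min_le_left _ _, ?_⟩
      have h1 : min (1 / 8) (ε / (2 * (8 * C + 2))) * (8 * C + 2) ≤
          ε / (2 * (8 * C + 2)) * (8 * C + 2) := by
        gcongr
        exact min_le_right _ _
      have h2 : ε / (2 * (8 * C + 2)) * (8 * C + 2) = ε / 2 := by
        field_simp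
      linarith
    obtain ⟨c₁, h₁⟩ := hlim s hs0.le (by linarith)
    obtain ⟨hκ0, hev⟩ := bounds hH hw hg0 hg1 hfin k h₀ hs0 (by linarith) h₁
    set κ : ℝ := c₁ - c₀ with hκ
    have hfac : 1 - 4 * s ≤ (1 - s) ^ 3 * Real.exp (-s) := by
      have h1 : 1 - s ≤ Real.exp (-s) := by
        have := Real.add_one_le_exp (-s)
        linarith
      have h2 : (1 - s) ^ 3 * (1 - s) ≤ (1 - s) ^ 3 * Real.exp (-s) :=
        mul_le_mul_of_nonneg_left h1 (pow_nonneg (by linarith) 3)
      have h3 : 1 - 4 * s ≤ (1 - s) ^ 3 * (1 - s) := by nlinarith [sq_nonneg s, sq_nonneg (s * (1 - s)), sq_nonneg (s * s)]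
      linarith
    have hκs : 0 ≤ κ / s := div_nonneg hκ0 hs0.le
    obtain ⟨N, hN⟩ := eventually_atTop.1 (hev.and hmC)
    have hκC : κ / s ≤ 2 * C := by
      obtain ⟨⟨-, h2⟩, h3⟩ := hN N le_rfl
      have h4 : κ / s * (1 - 4 * s) ≤ κ / s * ((1 - s) ^ 3 * Real.exp (-s)) :=
        mul_le_mul_of_nonneg_left hfac hκs
      have h5 : κ / s * (1 / 2) ≤ κ / s * (1 - 4 * s) :=
        mul_le_mul_of_nonneg_left (by linarith) hκs
      have h6 : m N ≤ C := h3
      rw [hm] at h6
      simp only at h6
      linarith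
    refine ⟨N, fun x hx y hy => ?_⟩
    have key : ∀ z, N ≤ z → κ / s - 8 * C * s ≤ m z ∧ m z ≤ κ / s + 2 * s := by
      intro z hz
      obtain ⟨⟨h1, h2⟩, -⟩ := hN z hz
      refine ⟨?_, h1⟩
      have h4 : κ / s * (1 - 4 * s) ≤ κ / s * ((1 - s) ^ 3 * Real.exp (-s)) :=
        mul_le_mul_of_nonneg_left hfac hκs
      have h5 : κ / s * (4 * s) ≤ 2 * C * (4 * s) := mul_le_mul_of_nonneg_right hκC (by linarith)
      have h6 : m z = S H (fun P => w P * g P) z / (z * Real.log z ^ k) := rfl
      rw [h6]
      nlinarith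
    obtain ⟨hx1, hx2⟩ := key x hx
    obtain ⟨hy1, hy2⟩ := key y hy
    rw [Real.dist_eq, abs_lt]
    constructor <;> nlinarith
  obtain ⟨μ, hμ⟩ := cauchySeq_tendsto_of_complete hcauchy
  exact ⟨μ, hμ⟩

end

/-- **all test functions**: if the number of the points of height at most `B` is asymptotic to `c B (log B) ^ k` for
all the heights `H exp (- ∑ s_i g_i)`, then the sums of the products of the test functions `g_i ≥ 0` converge -/
theorem all {ι : Type*} [DecidableEq ι] (k : ℕ) (H : Pt → ℝ) (hH : ∀ P, 0 < H P)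
    (hfin : ∀ B, {P | H P ≤ B}.Finite) (I : Finset ι) (g : ι → Pt → ℝ) (hg0 : ∀ i P, 0 ≤ g i P)
    (hgb : ∀ i, ∃ C : ℝ, ∀ P, g i P ≤ C)
    (h : ∀ s : ι → ℝ, Conv k (fun P => H P * Real.exp (-∑ i ∈ I, s i * g i P)) (fun _ => 1)) :
    Conv k H (fun P => ∏ i ∈ I, g i P) := by
  classical
  choose C hC using hgb
  set C' : ι → ℝ := fun i => max (C i) 1 with hC'
  have hC'1 : ∀ i, 0 < C' i := fun i => lt_of_lt_of_le one_pos (le_max_right _ _)
  have hC'le : ∀ i P, g i P ≤ C' i := fun i P => (hC i P).trans (le_max_left _ _)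
  -- the heights and the finiteness
  have hpos : ∀ (s : ι → ℝ) (P : Pt), 0 < H P * Real.exp (-∑ i ∈ I, s i * g i P) := fun s P =>
    mul_pos (hH P) (Real.exp_pos _)
  have hfins : ∀ (s : ι → ℝ) (B : ℝ), {P | H P * Real.exp (-∑ i ∈ I, s i * g i P) ≤ B}.Finite := by
    intro s B
    refine (hfin (|B| * Real.exp (∑ i ∈ I, |s i| * C' i))).subset fun P hP => ?_
    have h1 : H P * Real.exp (-∑ i ∈ I, s i * g i P) ≤ B := hP
    have h2 : H P = H P * Real.exp (-∑ i ∈ I, s i * g i P) * Real.exp (∑ i ∈ I, s i * g i P) := by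
      rw [mul_assoc, ← Real.exp_add]
      simp
    show H P ≤ _
    rw [h2]
    refine mul_le_mul (h1.trans (le_abs_self _)) (Real.exp_le_exp.2 ?_) (Real.exp_pos _).le
      (abs_nonneg _)
    refine Finset.sum_le_sum fun i _ => ?_
    calc s i * g i P ≤ |s i * g i P| := le_abs_self _
      _ = |s i| * g i P := by rw [abs_mul, abs_of_nonneg (hg0 i P)]
      _ ≤ |s i| * C' i := mul_le_mul_of_nonneg_left (hC'le i P) (abs_nonneg _)
  have key : ∀ T : Finset ι, T ⊆ I → ∀ s : ι → ℝ,
      Conv k (fun P => H P * Real.exp (-∑ i ∈ I, s i * g i P)) (fun P => ∏ i ∈ T, g i P) := by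
    intro T
    induction T using Finset.induction_on with
    | empty =>
      intro _ s
      simpa using h s
    | insert j T hj ih =>
      intro hT s
      have hTI : T ⊆ I := (Finset.subset_insert j T).trans hT
      have hjI : j ∈ I := hT (Finset.mem_insert_self j T)
      have h1 : Conv k (fun P => H P * Real.exp (-∑ i ∈ I, s i * g i P))
          (fun P => (∏ i ∈ T, g i P) * (g j P / C' j)) := by
        refine step (hpos s) (fun P => Finset.prod_nonneg fun i _ => hg0 i P)
          (fun P => div_nonneg (hg0 j P) (hC'1 j).le)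
          (fun P => (div_le_one (hC'1 j)).2 (hC'le j P)) (hfins s) k fun σ _ _ => ?_
        have h2 := ih hTI (Function.update s j (s j + σ / C' j))
        have h3 : tw (fun P => H P * Real.exp (-∑ i ∈ I, s i * g i P)) (fun P => g j P / C' j) σ =
            fun P => H P * Real.exp (-∑ i ∈ I, Function.update s j (s j + σ / C' j) i * g i P) := by
          funext P
          unfold tw
          rw [mul_assoc, ← Real.exp_add]
          congr 2
          rw [← Finset.add_sum_erase I _ hjI, ← Finset.add_sum_erase I (fun i =>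
            Function.update s j (s j + σ / C' j) i * g i P) hjI, Function.update_self]
          have h4 : ∑ i ∈ I.erase j, Function.update s j (s j + σ / C' j) i * g i P =
              ∑ i ∈ I.erase j, s i * g i P := by
            refine Finset.sum_congr rfl fun i hi => ?_
            rw [Function.update_of_ne (Finset.ne_of_mem_erase hi)]
          rw [h4]
          ring
        rw [h3]
        exact h2
      obtain ⟨c, hc⟩ := h1
      refine ⟨C' j * c, ?_⟩
      refine (hc.const_mul (C' j)).congr fun B => ?_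
      rw [← mul_div_assoc, ← S_mul (hfins s)]
      congr 2
      funext P
      rw [Finset.prod_insert hj]
      have := (hC'1 j).ne'
      field_simp
  have h5 := key I (Finset.Subset.refl I) (fun _ => 0)
  simpa using h5

end Pool.Agent.T63.EQ
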