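import Mathlib

/-!
# From the asymptotic formula for all heights to the equidistribution of the points, one function

`S H w B` is the sum of the weights `w P ≥ 0` over the points `P` of height `H P ≤ B`. If
`S (H exp (-s g)) w B ~ c_s B (log B) ^ k` for all `0 ≤ s ≤ 1`, `0 ≤ g ≤ 1`, then `S H (w g) B / (B (log B) ^ k)`
converges.
-/

set_option autoImplicit false

namespace Pool.Agent.T63.EQ

open Filter Topology MeasureTheory Set

variable {Pt : Type*}

/-- the sum of the weights of the points of height at most `B` -/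
noncomputable def S (H w : Pt → ℝ) (B : ℝ) : ℝ := ∑ᶠ P ∈ {P | H P ≤ B}, w P

/-- the normalised sums converge -/
def Conv (k : ℕ) (H w : Pt → ℝ) : Prop :=
  ∃ c : ℝ, Tendsto (fun B : ℝ => S H w B / (B * Real.log B ^ k)) atTop (𝓝 c)

theorem S_eq {H w : Pt → ℝ} {B : ℝ} (F : Finset Pt) (hF : ∀ P, H P ≤ B → P ∈ F) :
    S H w B = ∑ P ∈ F, {P | H P ≤ B}.indicator w P := by
  unfold S
  rw [finsum_mem_def]
  refine finsum_eq_sum_of_support_subset _ fun P hP => ?_
  rw [Function.mem_support] at hP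
  have : P ∈ {P | H P ≤ B} := by
    by_contra h
    exact hP (indicator_of_notMem h _)
  exact Finset.mem_coe.2 (hF P this)

theorem S_nonneg {H w : Pt → ℝ} (hw : ∀ P, 0 ≤ w P) (B : ℝ) : 0 ≤ S H w B :=
  finsum_nonneg fun P => finsum_nonneg fun _ => hw P

theorem S_mono_w {H w w' : Pt → ℝ} (hfin : ∀ B, {P | H P ≤ B}.Finite) (h : ∀ P, w P ≤ w' P) (B : ℝ) :
    S H w B ≤ S H w' B := by
  rw [S_eq (hfin B).toFinset (fun P hP => (hfin B).mem_toFinset.2 hP),
    S_eq (hfin B).toFinset (fun P hP => (hfin B).mem_toFinset.2 hP)]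
  exact Finset.sum_le_sum fun P _ => indicator_le_indicator (h P)

theorem S_mul {H w : Pt → ℝ} (hfin : ∀ B, {P | H P ≤ B}.Finite) (a : ℝ) (B : ℝ) :
    S H (fun P => a * w P) B = a * S H w B := by
  rw [S_eq (hfin B).toFinset (fun P hP => (hfin B).mem_toFinset.2 hP),
    S_eq (hfin B).toFinset (fun P hP => (hfin B).mem_toFinset.2 hP), Finset.mul_sum]
  refine Finset.sum_congr rfl fun P _ => ?_
  by_cases h : P ∈ {P | H P ≤ B}
  · rw [indicator_of_mem h, indicator_of_mem h]
  · rw [indicator_of_notMem h, indicator_of_notMem h, mul_zero]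

/-- the height divided by `exp (s g)` -/
noncomputable def tw (H g : Pt → ℝ) (s : ℝ) (P : Pt) : ℝ := H P * Real.exp (-(s * g P))

section
variable {H w g : Pt → ℝ} (hH : ∀ P, 0 < H P) (hw : ∀ P, 0 ≤ w P) (hg0 : ∀ P, 0 ≤ g P)
  (hg1 : ∀ P, g P ≤ 1) (hfin : ∀ B, {P | H P ≤ B}.Finite)

include hH in
theorem tw_pos (s : ℝ) (P : Pt) : 0 < tw H g s P := mul_pos (hH P) (Real.exp_pos _)

include hH hg0 in
theorem tw_le {s : ℝ} (hs : 0 ≤ s) (P : Pt) : tw H g s P ≤ H P := by
  unfold tw
  have h1 : Real.exp (-(s * g P)) ≤ 1 := by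
    rw [Real.exp_le_one_iff]
    have := mul_nonneg hs (hg0 P)
    linarith
  have := hH P
  nlinarith

include hH hg1 in
theorem le_of_tw {s : ℝ} (hs : 0 ≤ s) {B : ℝ} {P : Pt} (h : tw H g s P ≤ B) :
    H P ≤ B * Real.exp s := by
  unfold tw at h
  have h1 : H P = H P * Real.exp (-(s * g P)) * Real.exp (s * g P) := by
    rw [mul_assoc, ← Real.exp_add]
    simp
  have hB : 0 ≤ B := le_trans (mul_pos (hH P) (Real.exp_pos _)).le h
  rw [h1]
  refine mul_le_mul h (Real.exp_le_exp.2 ?_) (Real.exp_pos _).le hB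
  have := hg1 P
  nlinarith

/-- the integral of `1 / x` over the part of `[a, b)` in `(B₁, B]` -/
noncomputable def J (B₁ B a b : ℝ) : ℝ := ∫ x in Ioc B₁ B, (Ico a b).indicator (fun x : ℝ => x⁻¹) x

theorem intOn {a b : ℝ} (ha : 0 < a) : IntegrableOn (fun x : ℝ => x⁻¹) (Ico a b) := by
  have h1 : IntegrableOn (fun x : ℝ => x⁻¹) (Icc a b) := by
    refine ContinuousOn.integrableOn_Icc ?_
    exact continuousOn_inv₀.mono fun x hx => (lt_of_lt_of_le ha hx.1).ne'
  exact h1.mono_set Ico_subset_Icc_self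

theorem int_Ico {a b : ℝ} (ha : 0 < a) (hab : a ≤ b) : ∫ x in Ico a b, x⁻¹ = Real.log (b / a) := by
  rw [integral_Ico_eq_integral_Ioc, ← intervalIntegral.integral_of_le hab]
  exact integral_inv_of_pos ha (lt_of_lt_of_le ha hab)

theorem J_nonneg {B₁ B a b : ℝ} (ha : 0 < a) : 0 ≤ J B₁ B a b := by
  unfold J
  refine integral_nonneg fun x => ?_
  refine indicator_nonneg (fun x hx => ?_) x
  have : 0 < x := lt_of_lt_of_le ha hx.1
  positivity

theorem J_le {B₁ B a b : ℝ} (ha : 0 < a) (hab : a ≤ b) : J B₁ B a b ≤ Real.log (b / a) := by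
  unfold J
  rw [setIntegral_indicator measurableSet_Ico, ← int_Ico ha hab]
  refine setIntegral_mono_set (intOn ha) ?_ (HasSubset.Subset.eventuallyLE inter_subset_right)
  refine (ae_restrict_iff' measurableSet_Ico).2 (Eventually.of_forall fun x hx => ?_)
  have : 0 < x := lt_of_lt_of_le ha hx.1
  simp only [Pi.zero_apply]
  positivity

theorem J_eq {B₁ B a b : ℝ} (ha : 0 < a) (hab : a ≤ b) (h1 : B₁ < a) (h2 : b ≤ B) :
    J B₁ B a b = Real.log (b / a) := by
  unfold J
  rw [setIntegral_indicator measurableSet_Ico, ← int_Ico ha hab]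
  congr 2
  refine inter_eq_right.2 fun x hx => ⟨lt_of_lt_of_le h1 hx.1, hx.2.le.trans h2⟩

include hH in
theorem log_tw (s : ℝ) (P : Pt) : Real.log (H P / tw H g s P) = s * g P := by
  unfold tw
  rw [Real.exp_neg, ← div_eq_mul_inv, div_div_eq_mul_div, mul_div_assoc, ]
  have h1 : H P * (Real.exp (s * g P) / H P) = Real.exp (s * g P) := by
    field_simp [(hH P).ne']
  rw [h1, Real.log_exp]

include hH hg0 hg1 hfin in
/-- the difference of the sums is a sum of indicator functions of intervals -/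
theorem diff_eq {s : ℝ} (hs : 0 ≤ s) {B x : ℝ} (hx0 : 0 < x) (hx : x ≤ B) :
    (S (tw H g s) w x - S H w x) / x =
      ∑ P ∈ (hfin (B * Real.exp s)).toFinset,
        w P * (Ico (tw H g s P) (H P)).indicator (fun x : ℝ => x⁻¹) x := by
  have hle : x * Real.exp s ≤ B * Real.exp s := mul_le_mul_of_nonneg_right hx (Real.exp_pos s).le
  have hes : 1 ≤ Real.exp s := Real.one_le_exp hs
  rw [S_eq (hfin (B * Real.exp s)).toFinset (fun P hP => (hfin _).mem_toFinset.2
      ((le_of_tw hH hg1 hs hP).trans hle)),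
    S_eq (hfin (B * Real.exp s)).toFinset (fun P hP => (hfin _).mem_toFinset.2 (by
      have h1 : H P ≤ x := hP
      have h2 : x ≤ x * Real.exp s := by nlinarith
      exact (h1.trans h2).trans hle)),
    ← Finset.sum_sub_distrib, Finset.sum_div]
  refine Finset.sum_congr rfl fun P _ => ?_
  have h3 := tw_le hH hg0 hs P
  by_cases h1 : H P ≤ x
  · have h2 : tw H g s P ≤ x := h3.trans h1
    rw [indicator_of_mem (show P ∈ {P | tw H g s P ≤ x} from h2),
      indicator_of_mem (show P ∈ {P | H P ≤ x} from h1),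
      indicator_of_notMem (show x ∉ Ico (tw H g s P) (H P) from fun h => absurd h.2 (not_lt.2 h1))]
    simp
  · rw [indicator_of_notMem (show P ∉ {P | H P ≤ x} from h1)]
    by_cases h2 : tw H g s P ≤ x
    · rw [indicator_of_mem (show P ∈ {P | tw H g s P ≤ x} from h2),
        indicator_of_mem (show x ∈ Ico (tw H g s P) (H P) from ⟨h2, not_le.1 h1⟩)]
      rw [sub_zero, div_eq_mul_inv]
    · rw [indicator_of_notMem (show P ∉ {P | tw H g s P ≤ x} from h2),
        indicator_of_notMem (show x ∉ Ico (tw H g s P) (H P) from fun h => h2 h.1)]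
      simp

include hH in
theorem int_ind {B₁ B : ℝ} (s : ℝ) (P : Pt) :
    IntegrableOn (fun x => w P * (Ico (tw H g s P) (H P)).indicator (fun x : ℝ => x⁻¹) x)
      (Ioc B₁ B) := by
  refine Integrable.const_mul ?_ _
  exact ((integrable_indicator_iff measurableSet_Ico).2 (intOn (tw_pos hH s P))).integrableOn

include hH hg0 hg1 hfin in
theorem E_eq {s : ℝ} (hs : 0 ≤ s) {B₁ B : ℝ} (hB₁ : 0 < B₁) :
    ∫ x in Ioc B₁ B, (S (tw H g s) w x - S H w x) / x =
      ∑ P ∈ (hfin (B * Real.exp s)).toFinset, w P * J B₁ B (tw H g s P) (H P) := by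
  rw [setIntegral_congr_fun measurableSet_Ioc fun x hx =>
    diff_eq hH hg0 hg1 hfin hs (hB₁.trans hx.1) hx.2]
  rw [integral_finset_sum _ fun P _ => int_ind hH s P]
  exact Finset.sum_congr rfl fun P _ => integral_const_mul _ _

include hH hg0 hg1 hfin in
theorem E_int {s : ℝ} (hs : 0 ≤ s) {B₁ B : ℝ} (hB₁ : 0 < B₁) :
    IntegrableOn (fun x => (S (tw H g s) w x - S H w x) / x) (Ioc B₁ B) := by
  refine IntegrableOn.congr_fun (f := fun x => ∑ P ∈ (hfin (B * Real.exp s)).toFinset,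
        w P * (Ico (tw H g s P) (H P)).indicator (fun x : ℝ => x⁻¹) x) ?_ (fun x hx =>
    (diff_eq hH hg0 hg1 hfin hs (hB₁.trans hx.1) hx.2).symm) measurableSet_Ioc
  exact integrable_finset_sum _ fun P _ => int_ind hH s P

include hH hw hg0 hg1 hfin in
theorem E_le {s : ℝ} (hs : 0 ≤ s) {B₁ B : ℝ} (hB₁ : 0 < B₁) :
    ∫ x in Ioc B₁ B, (S (tw H g s) w x - S H w x) / x ≤
      s * S H (fun P => w P * g P) (B * Real.exp s) := by
  rw [E_eq hH hg0 hg1 hfin hs hB₁,
    S_eq (hfin (B * Real.exp s)).toFinset (fun P hP => (hfin _).mem_toFinset.2 hP), Finset.mul_sum]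
  refine Finset.sum_le_sum fun P hP => ?_
  have h1 : P ∈ {P | H P ≤ B * Real.exp s} := (hfin _).mem_toFinset.1 hP
  rw [indicator_of_mem h1]
  have h2 := J_le (B₁ := B₁) (B := B) (tw_pos hH s P) (tw_le hH hg0 hs P)
  rw [log_tw hH] at h2
  have h3 := mul_le_mul_of_nonneg_left h2 (hw P)
  linarith

include hH hw hg0 hg1 hfin in
theorem le_E {s : ℝ} (hs : 0 ≤ s) {B₁ B : ℝ} (hB₁ : 0 < B₁) (hB : B₁ ≤ B) :
    s * S H (fun P => w P * g P) B - s * S H w (B₁ * Real.exp s) ≤
      ∫ x in Ioc B₁ B, (S (tw H g s) w x - S H w x) / x := by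
  have hes : 1 ≤ Real.exp s := Real.one_le_exp hs
  have hB0 : 0 < B := lt_of_lt_of_le hB₁ hB
  rw [E_eq hH hg0 hg1 hfin hs hB₁,
    S_eq (hfin (B * Real.exp s)).toFinset (fun P hP => (hfin _).mem_toFinset.2 (by
      have h1 : H P ≤ B := hP
      have h2 : B ≤ B * Real.exp s := by nlinarith
      exact h1.trans h2)),
    S_eq (hfin (B * Real.exp s)).toFinset (fun P hP => (hfin _).mem_toFinset.2 (by
      have h1 : H P ≤ B₁ * Real.exp s := hP
      have h2 : B₁ * Real.exp s ≤ B * Real.exp s := by gcongr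
      exact h1.trans h2)), Finset.mul_sum, Finset.mul_sum, ← Finset.sum_sub_distrib]
  refine Finset.sum_le_sum fun P _ => ?_
  have hJ0 := mul_nonneg (hw P) (J_nonneg (B₁ := B₁) (B := B) (b := H P) (tw_pos hH (g := g) s P))
  have hwg : w P * g P ≤ w P := by
    have := hw P
    have := hg1 P
    nlinarith
  have hwg0 : 0 ≤ w P * g P := mul_nonneg (hw P) (hg0 P)
  by_cases h1 : H P ≤ B
  · rw [indicator_of_mem (show P ∈ {P | H P ≤ B} from h1)]
    by_cases h2 : B₁ < tw H g s P
    · rw [J_eq (tw_pos hH s P) (tw_le hH hg0 hs P) h2 h1, log_tw hH]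
      have h3 : 0 ≤ s * {P | H P ≤ B₁ * Real.exp s}.indicator w P :=
        mul_nonneg hs (indicator_nonneg (fun P _ => hw P) P)
      linarith
    · have h3 := le_of_tw hH hg1 hs (not_lt.1 h2)
      rw [indicator_of_mem (show P ∈ {P | H P ≤ B₁ * Real.exp s} from h3)]
      have h4 := mul_le_mul_of_nonneg_left hwg hs
      linarith
  · rw [indicator_of_notMem (show P ∉ {P | H P ≤ B} from h1)]
    have h3 : 0 ≤ s * {P | H P ≤ B₁ * Real.exp s}.indicator w P :=
      mul_nonneg hs (indicator_nonneg (fun P _ => hw P) P)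
    linarith

end

end Pool.Agent.T63.EQ
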