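import Pool.Agent.T63.EQ.Main

/-!
# Equidistribution from the asymptotic formula for all heights
-/

set_option autoImplicit false

namespace Pool.Agent.T63.EQ

open Filter Topology Set

variable {Q : Type*}

theorem fin_of_lim (A : Set Q) (H : Q → ℝ) (k : ℕ) {c : ℝ} (hc : 0 < c)
    (h : Tendsto (fun B : ℝ => (({P | P ∈ A ∧ H P ≤ B} : Set Q).ncard : ℝ) / (B * Real.log B ^ k)) atTop (𝓝 c))
    (B : ℝ) : {P | P ∈ A ∧ H P ≤ B}.Finite := by
  by_contra hinf
  have h1 : ∀ᶠ B' : ℝ in atTop,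
      (({P | P ∈ A ∧ H P ≤ B'} : Set Q).ncard : ℝ) / (B' * Real.log B' ^ k) = 0 := by
    filter_upwards [eventually_ge_atTop B] with B' hB'
    have h2 : ({P | P ∈ A ∧ H P ≤ B'} : Set Q).Infinite := by
      intro hf
      exact hinf (hf.subset fun P hP => ⟨hP.1, hP.2.trans hB'⟩)
    rw [h2.ncard]
    simp
  have h3 : Tendsto (fun _ : ℝ => (0 : ℝ)) atTop (𝓝 c) := h.congr' h1
  exact hc.ne (tendsto_nhds_unique tendsto_const_nhds h3)

theorem bij (A : Set Q) (H : Q → ℝ) (B : ℝ) :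
    BijOn (Subtype.val : A → Q) {P : A | H P ≤ B} {P | P ∈ A ∧ H P ≤ B} :=
  ⟨fun P hP => ⟨P.2, hP⟩, Subtype.val_injective.injOn, fun P hP => ⟨⟨P, hP.1⟩, hP.2, rfl⟩⟩

theorem S_sub (A : Set Q) (H : Q → ℝ) (F : Q → ℝ) (B : ℝ) :
    S (fun P : A => H P) (fun P : A => F P) B = ∑ᶠ P ∈ {P | P ∈ A ∧ H P ≤ B}, F P :=
  finsum_mem_eq_of_bijOn _ (bij A H B) fun _ _ => rfl

theorem fin_sub (A : Set Q) (H : Q → ℝ) (B : ℝ) (h : {P | P ∈ A ∧ H P ≤ B}.Finite) :
    {P : A | H P ≤ B}.Finite := by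
  refine Set.Finite.of_finite_image ?_ (Subtype.val_injective.injOn (s := {P : A | H P ≤ B}))
  rw [(bij A H B).image_eq]
  exact h

theorem S_one (A : Set Q) (H : Q → ℝ) (B : ℝ) (h : {P | P ∈ A ∧ H P ≤ B}.Finite) :
    S (fun P : A => H P) (fun _ => 1) B = (({P | P ∈ A ∧ H P ≤ B} : Set Q).ncard : ℝ) := by
  have h1 := S_sub A H (fun _ => 1) B
  rw [h1, finsum_mem_eq_finite_toFinset_sum _ h, Set.ncard_eq_toFinset_card _ h]
  simp

/-- **equidistribution**: if for all the heights `H exp (- ∑ s_i g_i)` the number of the points of height at most `B`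
is asymptotic to `c B (log B) ^ k`, then the sums of `∏ g_i` over the points of height at most `B`, divided by
`B (log B) ^ k`, converge -/
theorem equi {ι : Type*} [DecidableEq ι] (A : Set Q) (k : ℕ) (I : Finset ι) (H : Q → ℝ)
    (hH : ∀ P ∈ A, 0 < H P) (g : ι → Q → ℝ) (hg0 : ∀ i ∈ I, ∀ P ∈ A, 0 ≤ g i P)
    (hgb : ∀ i ∈ I, ∃ C : ℝ, ∀ P ∈ A, g i P ≤ C)
    (h : ∀ s : ι → ℝ, ∃ c : ℝ, 0 < c ∧ Tendsto (fun B : ℝ =>
      (({P | P ∈ A ∧ H P * Real.exp (-∑ i ∈ I, s i * g i P) ≤ B} : Set Q).ncard : ℝ) /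
        (B * Real.log B ^ k)) atTop (𝓝 c)) :
    ∃ μ : ℝ, Tendsto (fun B : ℝ => (∑ᶠ P ∈ {P | P ∈ A ∧ H P ≤ B}, ∏ i ∈ I, g i P) /
      (B * Real.log B ^ k)) atTop (𝓝 μ) := by
  classical
  have hfin : ∀ B, {P | P ∈ A ∧ H P ≤ B}.Finite := by
    obtain ⟨c, hc, h1⟩ := h (fun _ => 0)
    simp only [zero_mul, Finset.sum_const_zero, neg_zero, Real.exp_zero, mul_one] at h1
    exact fin_of_lim A H k hc h1
  have hconv : Conv k (fun P : A => H P) (fun P : A => ∏ i ∈ I, if i ∈ I then g i P else 0) := by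
    refine all k (fun P : A => H P) (fun P => hH P P.2) (fun B => fin_sub A H B (hfin B)) I
      (fun i (P : A) => if i ∈ I then g i P else 0) (fun i P => ?_) (fun i => ?_) fun s => ?_
    · split_ifs with hi
      · exact hg0 i hi P P.2
      · exact le_rfl
    · by_cases hi : i ∈ I
      · obtain ⟨C, hC⟩ := hgb i hi
        exact ⟨C, fun P => by rw [if_pos hi]; exact hC P P.2⟩
      · exact ⟨0, fun P => by rw [if_neg hi]⟩
    · obtain ⟨c, hc, h1⟩ := h s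
      refine ⟨c, h1.congr fun B => ?_⟩
      have h2 := S_one A (fun P => H P * Real.exp (-∑ i ∈ I, s i * g i P)) B
        (fin_of_lim A _ k hc h1 B)
      rw [← h2]
      congr 2
      funext P
      congr 3
      exact Finset.sum_congr rfl fun i hi => by rw [if_pos hi]
  obtain ⟨μ, hμ⟩ := hconv
  refine ⟨μ, hμ.congr fun B => ?_⟩
  rw [← S_sub A H (fun P => ∏ i ∈ I, g i P) B]
  congr 2
  funext P
  exact Finset.prod_congr rfl fun i hi => by rw [if_pos hi]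

end Pool.Agent.T63.EQ
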